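import Pool.Agent.H595.Dens.AlgX
import Pool.Graph.R_seed8.W472.AC.EMeas2

set_option autoImplicit false

/-!
# The density of the scales at which `π + e`, `π - e`, `π e` or `π / e` is near an algebraic number

Let `ξ` be a real number at which the nonzero polynomials with integer coefficients, of degree at most `r` and height at
most `H`, are `≫ H ^ (-r - ε)`, for all `r` (almost all numbers have this property, and `ξ = e` has it), let `t` be any
real number, for instance `t = π`, and let `S` be a set of at least two of the four numbers `t + ξ`, `t - ξ`, `t ξ`,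
`t / ξ`. For a degree `d` and an exponent `w` we consider the scales `X` at which one of the numbers `y` of `S` is near
an algebraic number, that is, `|y - α| ≤ X ^ (-w)` for an algebraic number `α` of degree at most `d` and height at most
`X`. If one of the numbers of `S` is algebraic of degree at most `d` then all large scales have this property. Let
`A = δ d ^ 3 + d`, where `δ = 2` if `t ξ` belongs to `S` and `δ = 1` if not, and `u = (A / d) ^ (1 / (|S| - 1))`. We show
that if no number of `S` is algebraic of degree at most `d` then the lower logarithmic density of the set of the scales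
is at most `max (A / w) ((A + (2 A - w) / (u - 1)) / w)`, which is less than `1` for `w > A (1 + 1 / u)`, and equal to
`A / w` for `w ≥ 2 A`. So there is a zero-one law for each degree, and the numbers of `S` are all transcendental if and
only if for each degree `d` the scales have lower density less than one for some exponent `w`. The order `1 / w` of the
bound is right for each `d`: for a dense set of real numbers `t` all four numbers are transcendental and the density is
at least `2 / w` for all `w ≥ 2` and all `d`.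

Method. Let `α_i` be the approximations, to one of the numbers, which are minimal and of exponent `w` at their own
height `H_i`, and `L_i` their distance. Two approximations of different numbers give, by elimination, a polynomial in
`ξ` with integer coefficients, of degree at most `δ d ^ 2` and height `≪ (H_i H_(i+1)) ^ d`, which is small; hence
`L_i ≫ (H_i H_(i+1)) ^ (-A-ε)`. Two of `|S| + 1` consecutive approximations belong to the same number, and this gives
`L_i ≫ (H_(i+|S|-1) H_(i+|S|)) ^ (-d)` by Liouville's inequality. The bound follows from the two inequalities by an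
argument on the growth of the partial sums of `log H_i`.
-/

namespace Pool.Agent.Results.MP_a2f59b_nt.DensityNearAlgebraic

open Filter MeasureTheory Real Polynomial

/-- nonzero integer polynomials are not smaller at `ξ` than at almost all numbers -/
def TypeOne (ξ : ℝ) : Prop := ∀ r : ℕ, ∀ ε : ℝ, 0 < ε → ∃ c : ℝ, 0 < c ∧ ∀ P : ℤ[X], P ≠ 0 → P.natDegree ≤ r →
  ∀ H : ℝ, 1 ≤ H → (∀ i, |(P.coeff i : ℝ)| ≤ H) → c * H ^ (-(r + ε)) ≤ |aeval ξ P|

/-- `y` is algebraic of degree at most `d` -/
def AlgebraicDeg (d : ℕ) (y : ℝ) : Prop := ∃ P : ℤ[X], P ≠ 0 ∧ P.natDegree ≤ d ∧ aeval y P = 0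

/-- at the scale `X` the number `y` is near an algebraic number, with exponent `w`: the algebraic number `α` is
a root of an irreducible integer polynomial of degree at most `d` with coefficients of absolute value at most `X` -/
def NearAlgebraic (d : ℕ) (y w X : ℝ) : Prop := ∃ (α : ℂ) (P : ℤ[X]), Irreducible P ∧ P.natDegree ≤ d ∧
  (∀ i, |(P.coeff i : ℝ)| ≤ X) ∧ aeval α P = 0 ∧ ‖(y : ℂ) - α‖ ≤ X ^ (-w)

/-- the four numbers -/
noncomputable def four (ξ t : ℝ) : Fin 4 → ℝ := ![t + ξ, t - ξ, t * ξ, t / ξ]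

/-- the logarithms `x` of the scales at which one of the numbers of `S` is near an algebraic number -/
def logScales (d : ℕ) (ξ t : ℝ) (S : Finset (Fin 4)) (w : ℝ) : Set ℝ :=
  {x | ∃ j ∈ S, NearAlgebraic d (four ξ t j) w (exp x)}

/-- the lower density of a set of positive real numbers; for the set of the logarithms of the elements
of a set of scales it is the lower logarithmic density of the set of scales -/
noncomputable def lowerDensity (S : Set ℝ) : ℝ :=
  liminf (fun T : ℝ => (volume (S ∩ Set.Icc 0 T)).toReal / T) atTop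

/-- the exponent `A = δ d ^ 3 + d`, `δ = 2` if `t ξ` belongs to the numbers and `δ = 1` if not -/
noncomputable def expo (S : Finset (Fin 4)) (d : ℕ) : ℝ := (if 2 ∈ S then 2 else 1) * (d : ℝ) ^ 3 + d

/-- the growth rate `u = (A / d) ^ (1 / (|S| - 1))` -/
noncomputable def rate (S : Finset (Fin 4)) (d : ℕ) : ℝ := (expo S d / d) ^ (1 / ((S.card : ℝ) - 1))

/-- the threshold `A (1 + 1 / u)` -/
noncomputable def threshold (S : Finset (Fin 4)) (d : ℕ) : ℝ := expo S d * (1 + 1 / rate S d)

/-- the bound for the density -/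
noncomputable def law (S : Finset (Fin 4)) (d : ℕ) (w : ℝ) : ℝ :=
  max (expo S d / w) ((expo S d + (2 * expo S d - w) / (rate S d - 1)) / w)

theorem transM {ξ : ℝ} (h : TypeOne ξ) : Pool.Agent.H595.Alg.TransM ξ := by
  intro r ε hε
  obtain ⟨c, hc, h1⟩ := h r ε hε
  refine ⟨c, hc, fun P h0 hd H hH hP => ?_⟩
  have h2 := h1 P h0 hd H hH hP
  rw [rpow_neg (by linarith), ← div_eq_mul_inv, div_le_iff₀ (by positivity)] at h2
  linarith

theorem typeOne_e : TypeOne (exp 1) := by
  intro r ε hε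
  obtain ⟨c, hc, h⟩ := Pool.Agent.W472.AC.e_measP r ε hε
  refine ⟨c, hc, fun P h0 hd H hH hP => ?_⟩
  have h2 := h P h0 hd H hH hP
  rw [rpow_neg (by linarith), ← div_eq_mul_inv, div_le_iff₀ (by positivity)]
  linarith

theorem notAlg_iff (d : ℕ) (y : ℝ) : Pool.Agent.H595.Alg.NotAlg d y ↔ ¬ AlgebraicDeg d y := by
  rw [AlgebraicDeg, Pool.Agent.H595.Alg.NotAlg]
  push Not
  rfl

theorem logScales_eq (d : ℕ) (ξ t : ℝ) (S : Finset (Fin 4)) (w : ℝ) :
    logScales d ξ t S w = Pool.Agent.H595.Alg.algScales d (Pool.Agent.H595.Alg.sub ξ t S) w := by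
  ext x
  constructor
  · rintro ⟨j, hj, h⟩
    exact ⟨⟨j, hj⟩, h⟩
  · rintro ⟨⟨j, hj⟩, h⟩
    exact ⟨j, hj, h⟩

theorem expo_eq (S : Finset (Fin 4)) (d : ℕ) : expo S d = (Pool.Agent.H595.Alg.dS S : ℝ) * (d : ℝ) ^ 3 + d := by
  rw [expo, Pool.Agent.H595.Alg.dS]
  split_ifs <;> norm_num

theorem expo_ge {S : Finset (Fin 4)} {d : ℕ} (hd : 1 ≤ d) : 2 * (d : ℝ) ≤ expo S d := by
  have hd' : (1 : ℝ) ≤ d := by exact_mod_cast hd
  have h1 : (d : ℝ) ≤ (d : ℝ) ^ 3 := le_self_pow₀ hd' (by norm_num)
  rw [expo]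
  split_ifs
  · linarith
  · linarith

theorem expo_pos {S : Finset (Fin 4)} {d : ℕ} (hd : 1 ≤ d) : 0 < expo S d := by
  have hd' : (1 : ℝ) ≤ d := by exact_mod_cast hd
  have := expo_ge (S := S) hd
  linarith

theorem rate_gt {S : Finset (Fin 4)} (hS : 2 ≤ S.card) {d : ℕ} (hd : 1 ≤ d) : 1 < rate S d := by
  have hd' : (1 : ℝ) ≤ d := by exact_mod_cast hd
  have hS' : (2 : ℝ) ≤ S.card := by exact_mod_cast hS
  have := expo_ge (S := S) hd
  apply one_lt_rpow
  · rw [one_lt_div (by linarith)]
    linarith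
  · have : 0 < (S.card : ℝ) - 1 := by linarith
    positivity

theorem rate_pow {S : Finset (Fin 4)} (hS : 2 ≤ S.card) {d : ℕ} (hd : 1 ≤ d) :
    rate S d ^ (S.card - 1) = expo S d / d := by
  have hd' : (1 : ℝ) ≤ d := by exact_mod_cast hd
  have h1 := expo_pos (S := S) hd
  have h2 : (S.card : ℝ) - 1 = ((S.card - 1 : ℕ) : ℝ) := by
    rw [Nat.cast_sub (by omega), Nat.cast_one]
  rw [rate, h2, one_div]
  exact rpow_inv_natCast_pow (by positivity) (by omega)

theorem law_eq (S : Finset (Fin 4)) (d : ℕ) (w : ℝ) :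
    law S d w = Pool.Agent.H595.Alg.algLaw (expo S d) (rate S d) w := rfl

theorem upper {ξ : ℝ} (hξ : TypeOne ξ) (t : ℝ) {S : Finset (Fin 4)} (hS : 2 ≤ S.card) {d : ℕ} (hd : 1 ≤ d) {w : ℝ}
    (hw : threshold S d < w) (h : ∀ j ∈ S, ¬ AlgebraicDeg d (four ξ t j)) :
    lowerDensity (logScales d ξ t S w) ≤ law S d w := by
  have hu := rate_gt hS hd
  have hE := expo_ge (S := S) hd
  have hE0 := expo_pos (S := S) hd
  have hd' : (1 : ℝ) ≤ d := by exact_mod_cast hd
  have hM := transM hξ
  have hN : ∀ j : S, Pool.Agent.H595.Alg.NotAlg d (Pool.Agent.H595.Alg.sub ξ t S j) := fun j =>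
    (notAlg_iff _ _).2 (h j.1 j.2)
  have hsep := Pool.Agent.H595.Alg.sub_sep hd hM (t := t) S (fun h3 =>
    Pool.Agent.H595.Alg.ne_of_notAlg hd hM.ne_zero (hN ⟨3, h3⟩))
  rw [← expo_eq] at hsep
  rw [logScales_eq, law_eq]
  refine Pool.Agent.H595.Alg.alg_law hd (by linarith) (n := S.card - 1) (by rw [Fintype.card_coe]; omega) hN hsep ?_
    hu (rate_pow hS hd)
  have h1 : 0 < 1 / rate S d := by positivity
  rw [threshold] at hw
  nlinarith

theorem density_one {ξ t : ℝ} {S : Finset (Fin 4)} {d : ℕ} (h : ∃ j ∈ S, AlgebraicDeg d (four ξ t j)) (w : ℝ) :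
    lowerDensity (logScales d ξ t S w) = 1 := by
  obtain ⟨j, hj, h⟩ := h
  rw [logScales_eq]
  exact Pool.Agent.H595.Alg.density_one_alg (θ := Pool.Agent.H595.Alg.sub ξ t S) (j := ⟨j, hj⟩)
    (fun h1 => (notAlg_iff _ _).1 h1 h) w

theorem law_lt_one {S : Finset (Fin 4)} (hS : 2 ≤ S.card) {d : ℕ} (hd : 1 ≤ d) {w : ℝ} (hw : threshold S d < w) :
    law S d w < 1 := by
  rw [law_eq]
  exact Pool.Agent.H595.Alg.algLaw_lt_one (expo_pos hd) (rate_gt hS hd) hw

theorem zero_one {ξ : ℝ} (hξ : TypeOne ξ) (t : ℝ) {S : Finset (Fin 4)} (hS : 2 ≤ S.card) {d : ℕ} (hd : 1 ≤ d) {w : ℝ}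
    (hw : threshold S d < w) : law S d w < 1 ∧
      ((∀ j ∈ S, ¬ AlgebraicDeg d (four ξ t j)) ↔ lowerDensity (logScales d ξ t S w) ≤ law S d w) ∧
      ((∃ j ∈ S, AlgebraicDeg d (four ξ t j)) ↔ lowerDensity (logScales d ξ t S w) = 1) := by
  have hl := law_lt_one hS hd hw
  refine ⟨hl, ⟨fun h => upper hξ t hS hd hw h, fun h j hj h1 => ?_⟩, ⟨fun h => density_one h w, fun h => ?_⟩⟩
  · rw [density_one ⟨j, hj, h1⟩ w] at h
    linarith
  · by_contra h1
    push Not at h1
    have h2 := upper hξ t hS hd hw h1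
    rw [h] at h2
    linarith

theorem transcendental_iff (y : ℝ) : Transcendental ℚ y ↔ ∀ d : ℕ, 1 ≤ d → ¬ AlgebraicDeg d y := by
  rw [Transcendental, ← IsFractionRing.isAlgebraic_iff ℤ ℚ ℝ]
  constructor
  · rintro h d - ⟨P, h0, -, h1⟩
    exact h ⟨P, h0, h1⟩
  · rintro h ⟨P, h0, h1⟩
    exact h (max 1 P.natDegree) (le_max_left _ _) ⟨P, h0, le_max_right _ _, h1⟩

theorem result :
    -- (1) the zero-one law for each degree `d`, for numbers `ξ` of type one and all real `t`
    (∀ ξ : ℝ, TypeOne ξ → ∀ t : ℝ, ∀ S : Finset (Fin 4), 2 ≤ S.card → ∀ d : ℕ, 1 ≤ d → ∀ w : ℝ, threshold S d < w →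
      law S d w < 1 ∧
      ((∀ j ∈ S, ¬ AlgebraicDeg d (four ξ t j)) ↔ lowerDensity (logScales d ξ t S w) ≤ law S d w) ∧
      ((∃ j ∈ S, AlgebraicDeg d (four ξ t j)) ↔ lowerDensity (logScales d ξ t S w) = 1)) ∧
    -- (2) the criterion for the transcendence of the numbers `π + e`, `π - e`, `π e`, `π / e`
    (TypeOne (exp 1) ∧ ∀ S : Finset (Fin 4), 2 ≤ S.card →
      ((∀ j ∈ S, Transcendental ℚ (four (exp 1) π j)) ↔
        ∀ d : ℕ, 1 ≤ d → ∃ w : ℝ, lowerDensity (logScales d (exp 1) π S w) < 1)) ∧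
    -- (3) the order of the bound is right
    (∀ ξ : ℝ, TypeOne ξ → ∀ a b : ℝ, a < b → ∃ t : ℝ, a < t ∧ t < b ∧ (∀ j, Transcendental ℚ (four ξ t j)) ∧
      ∀ d : ℕ, 1 ≤ d → ∀ w : ℝ, 2 ≤ w → 2 / w ≤ lowerDensity (logScales d ξ t Finset.univ w)) ∧
    -- (4) the values of the bound
    (∀ S : Finset (Fin 4), 2 ≤ S.card → ∀ d : ℕ, 1 ≤ d →
      (∀ w : ℝ, 2 * expo S d ≤ w → law S d w = expo S d / w) ∧ law S d (threshold S d) = 1) := by
  refine ⟨fun ξ hξ t S hS d hd w hw => zero_one hξ t hS hd hw,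
    ⟨typeOne_e, fun S hS => ⟨fun h d hd => ?_, fun h j hj => ?_⟩⟩, fun ξ hξ a b hab => ?_,
    fun S hS d hd => ⟨fun w hw => ?_, ?_⟩⟩
  · have h1 : threshold S d < threshold S d + 1 := by linarith
    have h2 := zero_one typeOne_e π hS hd h1
    exact ⟨_, (h2.2.1.1 (fun j hj => (transcendental_iff _).1 (h j hj) d hd)).trans_lt h2.1⟩
  · rw [transcendental_iff]
    intro d hd h1
    obtain ⟨w, hw⟩ := h d hd
    rw [density_one ⟨j, hj, h1⟩ w] at hw
    exact lt_irrefl _ hw
  · obtain ⟨t, h1, h2, h3, h4⟩ := Pool.Agent.H595.Alg.exists_four (transM hξ) hab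
    refine ⟨t, h1, h2, fun j => ?_, fun d hd w hw => ?_⟩
    · rw [transcendental_iff]
      intro d _ h5
      exact (notAlg_iff _ _).1 (h3 d j) h5
    · rw [logScales_eq]
      exact h4 d hd w hw
  · have := expo_pos (S := S) hd
    rw [law_eq]
    exact Pool.Agent.H595.Alg.algLaw_high (rate_gt hS hd) (by linarith) hw
  · rw [law_eq]
    exact Pool.Agent.H595.Alg.algLaw_eq_one (expo_pos hd) (rate_gt hS hd)

end Pool.Agent.Results.MP_a2f59b_nt.DensityNearAlgebraic
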