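import Mathlib
import Pool.Agent.H594.ML.Free
import Pool.Graph.R_seed8.H340R2.LW

/-!
# Eight of the nine numbers are transcendental for almost all members of families of multiples

For the nine numbers `P + E`, `P - E`, `P E`, `P / E`, `P ^ P`, `E ^ E`, `P ^ E`, `P ^ √2`, `e ^ (P²)`
with `P = π`, `E = e` it is not known for any single one whether it is transcendental. We replace `π`
and `e` by algebraic multiples `P = f(n) π` and `E = g(n) e`, where `f` and `g` are polynomials with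
real algebraic coefficients, for instance `P = (n + √2) π`, `E = (n + √3) e`. We show that for all
but finitely many integers `n` at least EIGHT of the nine numbers are transcendental: all of them
with the possible exception of one of `P E` and `P / E` (one of `P E`, `P / E` is algebraic for all `n`
if it is algebraic for `P = π`, `E = e`). The assumptions: `f` and `g` are not proportional, each of
them has two different complex zeros or an irrational one, and `f ^ 2` is not a multiple of a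
polynomial with rational coefficients (if `e ^ (π²)` is algebraic, then so is `e ^ (P²)` for all the
multiples `P = n π`). The assumptions on the zeros are needed for this method: the set of the integers
`n` such that `(n π) ^ (n π)` or `(n e) ^ (n e)` or `(n π) ^ (n e)` is algebraic is only known to be
very thin.

Moreover we consider products of powers: if `f ^ a g ^ b` has two different zeros or poles or an
irrational one for all integers `a`, `b`, not both zero, then for all but finitely many integers `n` the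
number `e ^ z P ^ x E ^ y` is transcendental for ALL quotients `x`, `y`, `z` with a common
denominator of polynomials in `π`, `e`, `log π` with algebraic coefficients of degree at most `D`,
unless `x` and `y` are algebraic; for example all
`(P ^ P) ^ a (E ^ E) ^ b (P ^ E) ^ c (P ^ √2) ^ d (e ^ (P²)) ^ h` with algebraic `a, b, c, d, h`, unless
`b = 0` and `a P + c E` is algebraic.

The proof. By the hyperplane case of the linear subgroup theorem (starting files `Pool.Agent.W254.HP`)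
and Baker's theorem, for an exceptional `n` a product of powers of `f(n)` and `g(n)`, and hence of
the linear factors, lies in a finitely generated group which does not depend on `n`
(`Pool.Agent.H594.ML.struct`). Then `n - a` is an `S`-unit for the zeros `a` which occur, for a
finite set `S` which does not depend on `n` and on the exponents. If there are two zeros, or if `a` is
irrational and `a'` is another conjugate of `a`, we get a solution `(n - a, n - a')` of a unit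
equation (`Pool.Agent.H594.ML.multi_finite`).
-/

set_option autoImplicit false

namespace Pool.Agent.Results.MP_a2f59b_nt.EightOfNine

open Pool.Agent.H594.ML
open Pool.Agent.H340R2.LW (transcendental_pi transcendental_exp_one)
open Real (pi exp)

/-- The linear combinations, with algebraic coefficients, of `1` and of logarithms of algebraic
numbers. -/
noncomputable def LogForms : Submodule (algebraicClosure ℚ ℂ) ℂ :=
  Submodule.span (algebraicClosure ℚ ℂ) ({1} ∪ {z : ℂ | IsAlgebraic ℚ (Complex.exp z)})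

/-- The numbers `e ^ z` with `z` in `LogForms`, i.e. the numbers `e ^ γ α_1 ^ β_1 ⋯ α_k ^ β_k` with
algebraic `γ`, `α_i ≠ 0`, `β_i`. All nonzero algebraic numbers are of this form. -/
def Prods : Set ℂ := {x | ∃ z ∈ LogForms, Complex.exp z = x}

/-- the nine numbers, for `P` and `E` in place of `π` and `e` -/
noncomputable def nine (P E : ℝ) : Fin 9 → ℝ :=
  ![P + E, P - E, P * E, P / E, P ^ P, E ^ E, P ^ E, P ^ √2, Real.exp (P ^ 2)]

/-- `f` has an irrational complex zero, or at least two different complex zeros. -/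
def HasZeros (f : Polynomial ℝ) : Prop :=
  ∃ a : ℂ, Polynomial.aeval a f = 0 ∧
    ((∀ q : ℚ, a ≠ q) ∨ ∃ b : ℂ, b ≠ a ∧ Polynomial.aeval b f = 0)

/-- For all integral exponents, not all zero, the product of the powers of the `f_j` has a zero or
pole outside of the field `K`, or at least two different zeros or poles. -/
def TwoZeros (K : IntermediateField ℚ ℂ) {k : ℕ} (f : Fin k → Polynomial ℂ) : Prop :=
  ∀ m : Fin k → ℤ, m ≠ 0 → ∃ a : ℂ, ∑ j, m j * ((f j).rootMultiplicity a : ℤ) ≠ 0 ∧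
    (a ∉ K ∨ ∃ b : ℂ, b ≠ a ∧ ∑ j, m j * ((f j).rootMultiplicity b : ℤ) ≠ 0)

/-- `(π, e, log π)` -/
noncomputable def pel : Fin 3 → ℂ :=
  ![((pi : ℝ) : ℂ), ((exp 1 : ℝ) : ℂ), ((Real.log pi : ℝ) : ℂ)]

/-- The tuples `(A_0(t) / Q(t), ..., A_k(t) / Q(t))` with polynomials `A_j`, `Q` with algebraic
coefficients and of degree at most `D` in each variable, `Q(t) ≠ 0`. -/
def quots {r : ℕ} (t : Fin r → ℂ) (D k : ℕ) : Set (Fin (k + 1) → ℂ) :=
  {x | ∃ (A : Fin (k + 1) → MvPolynomial (Fin r) (algebraicClosure ℚ ℂ))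
    (Q : MvPolynomial (Fin r) (algebraicClosure ℚ ℂ)), (∀ j i, (A j).degreeOf i ≤ D) ∧
    (∀ i, Q.degreeOf i ≤ D) ∧ MvPolynomial.aeval t Q ≠ 0 ∧
    ∀ j, x j = MvPolynomial.aeval t (A j) / MvPolynomial.aeval t Q}

theorem alg_lt {w : ℂ} (h : IsAlgebraic ℚ (Complex.exp w)) : w ∈ LogForms :=
  Submodule.subset_span (Or.inr h)

theorem alg_prods {x : ℂ} (hx : IsAlgebraic ℚ x) (hx0 : x ≠ 0) : x ∈ Prods := by
  refine ⟨Complex.log x, ?_, Complex.exp_log hx0⟩
  refine alg_lt ?_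
  rwa [Complex.exp_log hx0]

theorem prods_lt {w : ℂ} (h : Complex.exp w ∈ Prods) : w ∈ LogForms := by
  obtain ⟨z, hz, e⟩ := h
  exact Pool.Agent.HP778.mem_of_exp hz e.symm

theorem not_bot {a : ℂ} (ha : ∀ q : ℚ, a ≠ q) :
    a ∉ IntermediateField.adjoin ℚ (((∅ : Finset ℂ)) : Set ℂ) := by
  intro h
  rw [Finset.coe_empty, IntermediateField.adjoin_empty, IntermediateField.mem_bot] at h
  obtain ⟨q, hq⟩ := h
  exact ha q (by rw [← hq]; rfl)

theorem map_eval (f : Polynomial ℝ) (n : ℤ) :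
    (f.map (algebraMap ℝ ℂ)).eval (n : ℂ) = ((f.eval (n : ℝ) : ℝ) : ℂ) := by
  rw [Polynomial.eval_map]
  have h1 := Polynomial.eval₂_at_apply (p := f) (algebraMap ℝ ℂ) (n : ℝ)
  have h2 : (algebraMap ℝ ℂ) (n : ℝ) = (n : ℂ) := by simp
  rw [h2] at h1
  rw [h1]
  rfl

theorem map_alg {f : Polynomial ℝ} (hf : ∀ i, IsAlgebraic ℚ (f.coeff i)) (i : ℕ) :
    IsAlgebraic ℚ ((f.map (algebraMap ℝ ℂ)).coeff i) := by
  rw [Polynomial.coeff_map]
  exact (hf i).algebraMap

theorem mult_ne {f : Polynomial ℝ} (hf0 : f ≠ 0) {a : ℂ} (ha : Polynomial.aeval a f = 0) :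
    (f.map (algebraMap ℝ ℂ)).rootMultiplicity a ≠ 0 := by
  have h0 : f.map (algebraMap ℝ ℂ) ≠ 0 := (Polynomial.map_ne_zero_iff (algebraMap ℝ ℂ).injective).2 hf0
  rw [Ne, Polynomial.rootMultiplicity_eq_zero_iff]
  push Not
  refine ⟨?_, h0⟩
  show (f.map (algebraMap ℝ ℂ)).eval a = 0
  rw [Polynomial.eval_map_algebraMap]
  exact ha

theorem two_one {f : Polynomial ℝ} (hf0 : f ≠ 0) (h : HasZeros f) :
    TwoZ (IntermediateField.adjoin ℚ (((∅ : Finset ℂ)) : Set ℂ))
      ![f.map (algebraMap ℝ ℂ)] := by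
  intro m hm
  have hm0 : m 0 ≠ 0 := by
    intro h0
    apply hm
    funext i
    rw [Subsingleton.elim i 0, h0]
    rfl
  obtain ⟨a, ha, hab⟩ := h
  have key : ∀ c : ℂ, Polynomial.aeval c f = 0 →
      ∑ j : Fin 1, m j * ((![f.map (algebraMap ℝ ℂ)] j).rootMultiplicity c : ℤ) ≠ 0 := by
    intro c hc
    rw [Fin.sum_univ_one]
    exact mul_ne_zero hm0 (Int.natCast_ne_zero.2 (mult_ne hf0 hc))
  refine ⟨a, key a ha, ?_⟩
  rcases hab with h1 | ⟨b, hba, hb⟩
  · exact Or.inl (not_bot h1)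
  · exact Or.inr ⟨b, hba, key b hb⟩

theorem int_of_ring {S : Set ℂ}
    (hS : {z : ℂ | z ∈ Subring.closure (((∅ : Finset ℂ)) : Set ℂ) ∧ z ∈ S}.Finite) :
    {n : ℤ | (n : ℂ) ∈ S}.Finite := by
  refine Set.Finite.of_finite_image (hS.subset ?_) (f := fun n : ℤ => (n : ℂ))
    (fun a _ b _ hab => Int.cast_injective hab)
  rintro _ ⟨n, hn, rfl⟩
  exact ⟨intCast_mem _ n, hn⟩

/-- one base -/
theorem one_base {f : Polynomial ℝ} (hf0 : f ≠ 0) (hf : ∀ i, IsAlgebraic ℚ (f.coeff i))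
    (h : HasZeros f) (w : ℂ) :
    {n : ℤ | 0 < f.eval (n : ℝ) ∧ ∃ A : MvPolynomial (Fin 3) (algebraicClosure ℚ ℂ),
      (∀ i, A.degreeOf i ≤ 1) ∧ Transcendental ℚ (MvPolynomial.aeval pel A) ∧
      MvPolynomial.aeval pel A * (((Real.log (f.eval (n : ℝ)) : ℝ) : ℂ) + w) ∈
        LogForms}.Finite := by
  refine (int_of_ring (powers_free pel 1 (fun _ : Fin 1 => w) ∅ (by simp)
    ![f.map (algebraMap ℝ ℂ)] (fun j i => by
      rw [Subsingleton.elim j 0]
      exact map_alg hf i) (two_one hf0 h))).subset ?_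
  rintro n ⟨hn, A, hA1, hA2, hA3⟩
  intro hall
  obtain ⟨c, hc⟩ := hall.2 (fun _ => ((Real.log (f.eval (n : ℝ)) : ℝ) : ℂ)) (fun j => by
      rw [Subsingleton.elim j 0]
      show _ = (f.map (algebraMap ℝ ℂ)).eval (n : ℂ)
      rw [map_eval, ← Complex.ofReal_exp, Real.exp_log hn]) 0 1 (fun _ => A) (by simp) (by simp)
    (fun _ => hA1) (by simp) (by
      rw [Fin.sum_univ_one, map_zero, zero_div, zero_add, map_one, div_one]
      exact hA3) 0
  rw [map_one, div_one] at hc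
  apply hA2
  rw [hc]
  exact mem_algebraicClosure_iff.1 c.2

/-- linear polynomials -/
theorem lin (c : ℝ) (hc : IsAlgebraic ℚ c) (j : Fin 3) (x : ℝ) (hx : pel j = (x : ℂ)) :
    ∃ A : MvPolynomial (Fin 3) (algebraicClosure ℚ ℂ),
      (∀ i, A.degreeOf i ≤ 1) ∧ MvPolynomial.aeval pel A = ((c * x : ℝ) : ℂ) := by
  classical
  refine ⟨MvPolynomial.C (⟨(c : ℂ), mem_algebraicClosure_iff.2 hc.algebraMap⟩ :
    algebraicClosure ℚ ℂ) * MvPolynomial.X j, fun i => ?_, ?_⟩
  · refine (MvPolynomial.degreeOf_C_mul_le _ _ _).trans ?_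
    rw [MvPolynomial.degreeOf_X]
    split_ifs <;> simp
  · rw [map_mul, MvPolynomial.aeval_C, MvPolynomial.aeval_X, hx]
    push_cast
    rfl

theorem tr_mul {c : ℝ} (hc : IsAlgebraic ℚ c) (h0 : c ≠ 0) {x : ℝ} (hx : Transcendental ℚ x) :
    Transcendental ℚ (c * x) := by
  intro h
  apply hx
  have h2 : x = c⁻¹ * (c * x) := by
    rw [← mul_assoc, inv_mul_cancel₀ h0, one_mul]
  rw [h2]
  exact hc.inv.mul h

theorem eval_alg {f : Polynomial ℝ} (hf : ∀ i, IsAlgebraic ℚ (f.coeff i)) (n : ℤ) :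
    IsAlgebraic ℚ (f.eval (n : ℝ)) := by
  rw [Polynomial.eval_eq_sum_range, ← mem_algebraicClosure_iff]
  refine sum_mem fun i _ => ?_
  exact mul_mem (mem_algebraicClosure_iff.2 (hf i)) (pow_mem (intCast_mem _ n) i)

/-- the powers with a transcendental exponent -/
theorem power_finite {f : Polynomial ℝ} (hf0 : f ≠ 0) (hf : ∀ i, IsAlgebraic ℚ (f.coeff i))
    (h : HasZeros f) (y : ℝ) (hy : 0 < y) (j : Fin 3) (x : ℝ) (hx : pel j = (x : ℂ))
    (hxt : Transcendental ℚ x) (u : ℤ → ℝ) (hu : ∀ n, IsAlgebraic ℚ (u n)) :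
    {n : ℤ | 0 < f.eval (n : ℝ) ∧ u n ≠ 0 ∧
      IsAlgebraic ℚ ((f.eval (n : ℝ) * y) ^ (u n * x))}.Finite := by
  refine (one_base hf0 hf h ((Real.log y : ℝ) : ℂ)).subset ?_
  rintro n ⟨hn, hun, halg⟩
  obtain ⟨A, hA1, hA2⟩ := lin (u n) (hu n) j x hx
  refine ⟨hn, A, hA1, ?_, ?_⟩
  · rw [hA2]
    exact Pool.Agent.HP778.ofReal_transcendental (tr_mul (hu n) hun hxt)
  · rw [hA2]
    refine alg_lt ?_
    rw [Real.rpow_def_of_pos (mul_pos hn hy), Real.log_mul hn.ne' hy.ne'] at halg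
    have h1 : Complex.exp (((u n * x : ℝ) : ℂ) * (((Real.log (f.eval (n : ℝ)) : ℝ) : ℂ) +
        ((Real.log y : ℝ) : ℂ))) =
        ((Real.exp ((Real.log (f.eval (n : ℝ)) + Real.log y) * (u n * x)) : ℝ) : ℂ) := by
      rw [Complex.ofReal_exp]
      congr 1
      push_cast
      ring
    rw [h1]
    exact halg.algebraMap

theorem nonconst {f : Polynomial ℝ} (h : HasZeros f) (c : ℝ) :
    {n : ℤ | f.eval (n : ℝ) = c ∧ c ≠ 0}.Finite := by
  by_cases hc : c = 0
  · refine Set.finite_empty.subset ?_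
    rintro n ⟨-, h1⟩
    exact h1 hc
  have h1 : f - Polynomial.C c ≠ 0 := by
    intro h2
    obtain ⟨a, ha, -⟩ := h
    rw [sub_eq_zero] at h2
    rw [h2, Polynomial.aeval_C] at ha
    exact hc ((map_eq_zero _).1 ha)
  have h2 := Polynomial.rootSet_finite (f - Polynomial.C c) ℝ
  refine (h2.preimage (Int.cast_injective (α := ℝ)).injOn).subset ?_
  rintro n ⟨hn, -⟩
  show (n : ℝ) ∈ (f - Polynomial.C c).rootSet ℝ
  rw [Polynomial.mem_rootSet]
  refine ⟨h1, ?_⟩
  rw [Polynomial.coe_aeval_eq_eval, Polynomial.eval_sub, Polynomial.eval_C, hn, sub_self]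

/-- the power with the exponent `√2` -/
theorem sqrt_finite {f : Polynomial ℝ} (hf : ∀ i, IsAlgebraic ℚ (f.coeff i))
    (h : HasZeros f) (y : ℝ) (hy : 0 < y) :
    {n : ℤ | 0 < f.eval (n : ℝ) ∧ IsAlgebraic ℚ ((f.eval (n : ℝ) * y) ^ √2)}.Finite := by
  rcases Set.eq_empty_or_nonempty
    {n : ℤ | 0 < f.eval (n : ℝ) ∧ IsAlgebraic ℚ ((f.eval (n : ℝ) * y) ^ √2)} with h1 | ⟨m, hm1, hm2⟩
  · rw [h1]
    exact Set.finite_empty
  refine (nonconst h (f.eval (m : ℝ))).subset ?_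
  rintro n ⟨hn1, hn2⟩
  refine ⟨?_, hm1.ne'⟩
  obtain ⟨a, ha⟩ : ∃ a, a = f.eval (n : ℝ) / f.eval (m : ℝ) := ⟨_, rfl⟩
  have ha0 : 0 < a := by rw [ha]; exact div_pos hn1 hm1
  have halg : IsAlgebraic ℚ a := by
    rw [ha, div_eq_mul_inv]
    exact (eval_alg hf n).mul (eval_alg hf m).inv
  have hpow : IsAlgebraic ℚ (a ^ √2) := by
    have h2 : a ^ √2 = (f.eval (n : ℝ) * y) ^ √2 * ((f.eval (m : ℝ) * y) ^ √2)⁻¹ := by
      rw [← div_eq_mul_inv, ← Real.div_rpow (mul_pos hn1 hy).le (mul_pos hm1 hy).le]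
      congr 1
      rw [ha]
      field_simp
    rw [h2]
    exact hn2.mul hm2.inv
  by_cases hlog : Real.log a = 0
  · have h3 : a = 1 := by
      rw [← Real.exp_log ha0, hlog, Real.exp_zero]
    rw [ha, div_eq_one_iff_eq hm1.ne'] at h3
    exact h3
  · exfalso
    have hlog' : ((Real.log a : ℝ) : ℂ) ≠ 0 := Complex.ofReal_ne_zero.2 hlog
    obtain ⟨q, hq⟩ := ratio_rat (l := ((Real.log a : ℝ) : ℂ)) (c := ((√2 : ℝ) : ℂ)) hlog' (by
        rw [← Complex.ofReal_exp, Real.exp_log ha0]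
        exact halg.algebraMap) (by
        have h4 : IsAlgebraic ℚ (√2 : ℝ) := by
          refine IsAlgebraic.of_pow (n := 2) two_pos ?_
          rw [Real.sq_sqrt (by norm_num)]
          exact isAlgebraic_natCast 2
        exact h4.algebraMap) (by
        rw [← Complex.ofReal_mul, ← Complex.ofReal_exp]
        rw [Real.rpow_def_of_pos ha0, mul_comm] at hpow
        exact hpow.algebraMap)
    have h5 : (√2 : ℝ) = (q : ℝ) := by
      have h6 : ((√2 : ℝ) : ℂ) = (((q : ℝ)) : ℂ) := by rw [hq]; norm_cast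
      exact Complex.ofReal_injective h6
    exact irrational_sqrt_two ⟨q, h5.symm⟩

/-- a polynomial with infinitely many rational values at integers has rational coefficients -/
theorem rat_values (h : Polynomial ℝ) (hinf : {n : ℤ | ∃ q : ℚ, h.eval (n : ℝ) = q}.Infinite) :
    ∃ p : Polynomial ℚ, h = p.map (algebraMap ℚ ℝ) := by
  have hcoeff : ∀ i, h.coeff i ∈ Set.range (algebraMap ℚ ℝ) := by
    intro i
    by_contra hi
    have hi' : h.coeff i ∉ Submodule.span ℚ ({1} : Set ℝ) := by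
      intro h1
      obtain ⟨q, hq⟩ := Submodule.mem_span_singleton.1 h1
      apply hi
      refine ⟨q, ?_⟩
      rw [← hq, Algebra.smul_def, mul_one]
    obtain ⟨ψ, hψ1, hψ2⟩ := Submodule.exists_le_ker_of_notMem hi'
    have hψone : ψ 1 = 0 := hψ2 (Submodule.mem_span_singleton_self _)
    let p : Polynomial ℚ := ∑ j ∈ Finset.range (h.natDegree + 1),
      Polynomial.C (ψ (h.coeff j)) * Polynomial.X ^ j
    have hp : ∀ n : ℤ, p.eval (n : ℚ) = ψ (h.eval (n : ℝ)) := by
      intro n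
      show (∑ j ∈ Finset.range (h.natDegree + 1), _ : Polynomial ℚ).eval (n : ℚ) = _
      rw [Polynomial.eval_finsetSum, Polynomial.eval_eq_sum_range, map_sum]
      refine Finset.sum_congr rfl fun j _ => ?_
      rw [Polynomial.eval_mul, Polynomial.eval_C, Polynomial.eval_pow, Polynomial.eval_X]
      have h3 : h.coeff j * (n : ℝ) ^ j = ((n ^ j : ℤ) : ℚ) • h.coeff j := by
        rw [Rat.smul_def, Rat.cast_intCast, mul_comm]
        push_cast
        rfl
      rw [h3, map_smul, smul_eq_mul]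
      push_cast
      ring
    have hp0 : p = 0 := by
      refine Polynomial.eq_zero_of_infinite_isRoot p ?_
      refine (hinf.image (f := fun n : ℤ => (n : ℚ)) Int.cast_injective.injOn).mono ?_
      rintro _ ⟨n, ⟨q, hq⟩, rfl⟩
      show p.eval (n : ℚ) = 0
      rw [hp, hq]
      have h4 : (q : ℝ) = q • (1 : ℝ) := by rw [Algebra.smul_def, mul_one]; rfl
      rw [h4, map_smul, hψone, smul_zero]
    have h5 : p.coeff i = ψ (h.coeff i) := by
      show (∑ j ∈ Finset.range (h.natDegree + 1), _ : Polynomial ℚ).coeff i = _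
      rw [Polynomial.finsetSum_coeff]
      simp_rw [Polynomial.coeff_C_mul, Polynomial.coeff_X_pow]
      by_cases hir : i ∈ Finset.range (h.natDegree + 1)
      · rw [Finset.sum_eq_single i]
        · simp
        · intro j _ hj
          rw [if_neg hj.symm, mul_zero]
        · intro h'
          exact absurd hir h'
      · rw [Finset.sum_eq_zero, Polynomial.coeff_eq_zero_of_natDegree_lt, map_zero]
        · rw [Finset.mem_range] at hir
          omega
        · intro j hj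
          rw [if_neg, mul_zero]
          rintro rfl
          exact hir hj
    rw [hp0, Polynomial.coeff_zero] at h5
    exact hψ1 h5.symm
  obtain ⟨p, hp⟩ := (Polynomial.mem_lifts h).1 ((Polynomial.lifts_iff_coeff_lifts h).2 hcoeff)
  exact ⟨p, hp.symm⟩

/-- the exponential of the square -/
theorem square_finite {f : Polynomial ℝ} (hf : ∀ i, IsAlgebraic ℚ (f.coeff i))
    (hsq : ∀ (c : ℝ) (p : Polynomial ℚ), f ^ 2 ≠ Polynomial.C c * p.map (algebraMap ℚ ℝ))
    (y : ℝ) (hy : 0 < y) :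
    {n : ℤ | 0 < f.eval (n : ℝ) ∧ IsAlgebraic ℚ (Real.exp ((f.eval (n : ℝ) * y) ^ 2))}.Finite := by
  by_contra hinf
  rw [← Set.Infinite] at hinf
  obtain ⟨m, hm1, hm2⟩ := hinf.nonempty
  obtain ⟨p, hp⟩ := rat_values (Polynomial.C ((f.eval (m : ℝ)) ^ 2)⁻¹ * f ^ 2) (hinf.mono (by
    rintro n ⟨hn1, hn2⟩
    have hl0 : (((f.eval (m : ℝ) * y) ^ 2 : ℝ) : ℂ) ≠ 0 :=
      Complex.ofReal_ne_zero.2 (pow_ne_zero _ (mul_pos hm1 hy).ne')
    obtain ⟨q, hq⟩ := ratio_rat (l := (((f.eval (m : ℝ) * y) ^ 2 : ℝ) : ℂ))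
      (c := ((((f.eval (m : ℝ)) ^ 2)⁻¹ * f.eval (n : ℝ) ^ 2 : ℝ) : ℂ)) hl0 (by
        rw [← Complex.ofReal_exp]
        exact hm2.algebraMap) (by
        exact (((eval_alg hf m).pow 2).inv.mul ((eval_alg hf n).pow 2)).algebraMap) (by
        rw [← Complex.ofReal_mul, ← Complex.ofReal_exp]
        have h1 : ((f.eval (m : ℝ)) ^ 2)⁻¹ * f.eval (n : ℝ) ^ 2 * (f.eval (m : ℝ) * y) ^ 2 =
            (f.eval (n : ℝ) * y) ^ 2 := by
          field_simp
        rw [h1]
        exact hn2.algebraMap)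
    refine ⟨q, ?_⟩
    rw [Polynomial.eval_mul, Polynomial.eval_C, Polynomial.eval_pow]
    have h6 : ((((f.eval (m : ℝ)) ^ 2)⁻¹ * f.eval (n : ℝ) ^ 2 : ℝ) : ℂ) = (((q : ℝ)) : ℂ) := by
      rw [hq]; norm_cast
    exact Complex.ofReal_injective h6))
  refine hsq ((f.eval (m : ℝ)) ^ 2) p ?_
  rw [← hp, ← mul_assoc, ← Polynomial.C_mul, mul_inv_cancel₀ (pow_ne_zero _ hm1.ne'),
    Polynomial.C_1, one_mul]

/-- the sum and the difference -/
theorem sum_finite {f g : Polynomial ℝ} (hf : ∀ i, IsAlgebraic ℚ (f.coeff i))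
    (hg : ∀ i, IsAlgebraic ℚ (g.coeff i)) (hfg : ∀ c : ℝ, f ≠ Polynomial.C c * g)
    (x y : ℝ) (hx : Transcendental ℚ x) (ε : ℝ) :
    {n : ℤ | 0 < g.eval (n : ℝ) ∧
      IsAlgebraic ℚ (f.eval (n : ℝ) * x + ε * (g.eval (n : ℝ) * y))}.Finite := by
  rcases Set.eq_empty_or_nonempty {n : ℤ | 0 < g.eval (n : ℝ) ∧
      IsAlgebraic ℚ (f.eval (n : ℝ) * x + ε * (g.eval (n : ℝ) * y))} with h1 | ⟨m, hm1, hm2⟩
  · rw [h1]
    exact Set.finite_empty
  have h1 : Polynomial.C (g.eval (m : ℝ)) * f - Polynomial.C (f.eval (m : ℝ)) * g ≠ 0 := by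
    intro h2
    rw [sub_eq_zero] at h2
    apply hfg ((g.eval (m : ℝ))⁻¹ * f.eval (m : ℝ))
    rw [Polynomial.C_mul, mul_assoc, ← h2, ← mul_assoc, ← Polynomial.C_mul,
      inv_mul_cancel₀ hm1.ne', Polynomial.C_1, one_mul]
  have h2 := Polynomial.rootSet_finite
    (Polynomial.C (g.eval (m : ℝ)) * f - Polynomial.C (f.eval (m : ℝ)) * g) ℝ
  refine (h2.preimage (Int.cast_injective (α := ℝ)).injOn).subset ?_
  rintro n ⟨hn1, hn2⟩
  show (n : ℝ) ∈ (Polynomial.C (g.eval (m : ℝ)) * f -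
    Polynomial.C (f.eval (m : ℝ)) * g).rootSet ℝ
  rw [Polynomial.mem_rootSet]
  refine ⟨h1, ?_⟩
  rw [Polynomial.coe_aeval_eq_eval, Polynomial.eval_sub, Polynomial.eval_mul, Polynomial.eval_mul,
    Polynomial.eval_C, Polynomial.eval_C]
  by_contra h3
  apply hx
  have h4 : x = (g.eval (m : ℝ) * f.eval (n : ℝ) - f.eval (m : ℝ) * g.eval (n : ℝ))⁻¹ *
      (g.eval (m : ℝ) * (f.eval (n : ℝ) * x + ε * (g.eval (n : ℝ) * y)) -
        g.eval (n : ℝ) * (f.eval (m : ℝ) * x + ε * (g.eval (m : ℝ) * y))) := by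
    field_simp
    ring
  rw [h4]
  have a1 := eval_alg hf n
  have a2 := eval_alg hf m
  have a3 := eval_alg hg n
  have a4 := eval_alg hg m
  exact ((a4.mul a1).sub (a2.mul a3)).inv.mul ((a4.mul hn2).sub (a3.mul hm2))

/-- the product and the quotient -/
theorem prod_quot {P E : ℝ} (hE : E ≠ 0) (hP : Transcendental ℚ P) :
    Transcendental ℚ (P * E) ∨ Transcendental ℚ (P / E) := by
  by_contra hcon
  rw [not_or] at hcon
  have h1 : IsAlgebraic ℚ (P * E) := not_not.1 hcon.1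
  have h2 : IsAlgebraic ℚ (P / E) := not_not.1 hcon.2
  apply hP
  refine IsAlgebraic.of_pow (n := 2) two_pos ?_
  have h3 : P ^ 2 = (P * E) * (P / E) := by
    field_simp
  rw [h3]
  exact h1.mul h2

theorem eight {f g : Polynomial ℝ} (hf0 : f ≠ 0) (hg0 : g ≠ 0)
    (hf : ∀ i, IsAlgebraic ℚ (f.coeff i)) (hg : ∀ i, IsAlgebraic ℚ (g.coeff i))
    (hfz : HasZeros f) (hgz : HasZeros g) (hfg : ∀ c : ℝ, f ≠ Polynomial.C c * g)
    (hsq : ∀ (c : ℝ) (p : Polynomial ℚ), f ^ 2 ≠ Polynomial.C c * p.map (algebraMap ℚ ℝ)) :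
    {n : ℤ | 0 < f.eval (n : ℝ) ∧ 0 < g.eval (n : ℝ) ∧
      ¬ ((∀ i : Fin 9, i ≠ 2 → i ≠ 3 →
          Transcendental ℚ (nine (f.eval (n : ℝ) * pi) (g.eval (n : ℝ) * exp 1) i)) ∧
        (Transcendental ℚ (nine (f.eval (n : ℝ) * pi) (g.eval (n : ℝ) * exp 1) 2) ∨
          Transcendental ℚ (nine (f.eval (n : ℝ) * pi) (g.eval (n : ℝ) * exp 1) 3)))}.Finite := by
  have e0 : pel 0 = ((pi : ℝ) : ℂ) := rfl
  have e1 : pel 1 = ((exp 1 : ℝ) : ℂ) := rfl
  have F0 := sum_finite hf hg hfg pi (exp 1) transcendental_pi 1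
  have F1 := sum_finite hf hg hfg pi (exp 1) transcendental_pi (-1)
  have F4 := power_finite hf0 hf hfz pi Real.pi_pos 0 pi e0 transcendental_pi
    (fun n => f.eval (n : ℝ)) (eval_alg hf)
  have F5 := power_finite hg0 hg hgz (exp 1) (Real.exp_pos 1) 1 (exp 1) e1 transcendental_exp_one
    (fun n => g.eval (n : ℝ)) (eval_alg hg)
  have F6 := power_finite hf0 hf hfz pi Real.pi_pos 1 (exp 1) e1 transcendental_exp_one
    (fun n => g.eval (n : ℝ)) (eval_alg hg)
  have F7 := sqrt_finite hf hfz pi Real.pi_pos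
  have F8 := square_finite hf hsq pi Real.pi_pos
  refine (F0.union (F1.union (F4.union (F5.union (F6.union (F7.union F8)))))).subset ?_
  rintro n ⟨hfn, hgn, hno⟩
  by_contra hout
  simp only [Set.mem_union, not_or] at hout
  obtain ⟨h0, h1, h4, h5, h6, h7, h8⟩ := hout
  refine hno ⟨fun i hi2 hi3 => ?_, ?_⟩
  · fin_cases i
    · intro h
      refine h0 ⟨hgn, ?_⟩
      rw [one_mul]
      exact h
    · intro h
      refine h1 ⟨hgn, ?_⟩
      rw [neg_one_mul, ← sub_eq_add_neg]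
      exact h
    · exact absurd rfl hi2
    · exact absurd rfl hi3
    · exact fun h => h4 ⟨hfn, hfn.ne', h⟩
    · exact fun h => h5 ⟨hgn, hgn.ne', h⟩
    · exact fun h => h6 ⟨hfn, hgn.ne', h⟩
    · exact fun h => h7 ⟨hfn, h⟩
    · exact fun h => h8 ⟨hfn, h⟩
  · exact prod_quot (mul_pos hgn (Real.exp_pos 1)).ne'
      (tr_mul (eval_alg hf n) hfn.ne' transcendental_pi)

theorem card_eight {v : Fin 9 → ℝ} (h1 : ∀ i : Fin 9, i ≠ 2 → i ≠ 3 → Transcendental ℚ (v i))
    (h2 : Transcendental ℚ (v 2) ∨ Transcendental ℚ (v 3)) :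
    8 ≤ Nat.card {i : Fin 9 // Transcendental ℚ (v i)} := by
  classical
  rw [Nat.card_eq_fintype_card, Fintype.card_subtype]
  rcases h2 with h2 | h2
  · have h3 : Finset.univ.erase (3 : Fin 9) ⊆ Finset.univ.filter (fun i => Transcendental ℚ (v i)) := by
      intro i hi
      rw [Finset.mem_filter]
      refine ⟨Finset.mem_univ i, ?_⟩
      by_cases hi2 : i = 2
      · rw [hi2]
        exact h2
      · exact h1 i hi2 (Finset.mem_erase.1 hi).1
    have h4 := Finset.card_le_card h3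
    rw [Finset.card_erase_of_mem (Finset.mem_univ _), Finset.card_univ, Fintype.card_fin] at h4
    exact h4
  · have h3 : Finset.univ.erase (2 : Fin 9) ⊆ Finset.univ.filter (fun i => Transcendental ℚ (v i)) := by
      intro i hi
      rw [Finset.mem_filter]
      refine ⟨Finset.mem_univ i, ?_⟩
      by_cases hi3 : i = 3
      · rw [hi3]
        exact h2
      · exact h1 i (Finset.mem_erase.1 hi).1 hi3
    have h4 := Finset.card_le_card h3
    rw [Finset.card_erase_of_mem (Finset.mem_univ _), Finset.card_univ, Fintype.card_fin] at h4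
    exact h4

/-- products of powers, general version -/
theorem general {r k : ℕ} (t : Fin r → ℂ) (D : ℕ) (w : Fin k → ℂ) (T : Finset ℂ)
    (hT : ∀ x ∈ T, IsAlgebraic ℚ x) (f : Fin k → Polynomial ℂ)
    (hf : ∀ j i, IsAlgebraic ℚ ((f j).coeff i))
    (h2 : TwoZeros (IntermediateField.adjoin ℚ (T : Set ℂ)) f) :
    {z : ℂ | z ∈ Subring.closure (T : Set ℂ) ∧ ¬ ((∀ j, (f j).eval z ≠ 0) ∧ ∀ l : Fin k → ℂ,
      (∀ j, Complex.exp (l j) = (f j).eval z) → ∀ x ∈ quots t D k,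
      Complex.exp (x 0) * ∏ j : Fin k, Complex.exp (x j.succ * (l j + w j)) ∈ Prods →
      ∀ j : Fin k, IsAlgebraic ℚ (x j.succ))}.Finite := by
  refine (powers_free t D w T hT f hf h2).subset ?_
  rintro z ⟨hz, hno⟩
  refine ⟨hz, fun hall => hno ⟨hall.1, ?_⟩⟩
  rintro l hl x ⟨A, Q, hA, hQ, hQ0, hx⟩ hmem j
  rw [← Complex.exp_sum, ← Complex.exp_add] at hmem
  have h1 := prods_lt hmem
  simp only [hx] at h1
  obtain ⟨c, hc⟩ := hall.2 l hl (A 0) Q (fun j => A j.succ) (hA 0) hQ (fun j => hA j.succ) hQ0 h1 j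
  rw [hx, hc]
  exact mem_algebraicClosure_iff.1 c.2

/-- products of powers of `f(n) π` and `g(n) e` -/
theorem pair {f g : Polynomial ℝ} (hf : ∀ i, IsAlgebraic ℚ (f.coeff i))
    (hg : ∀ i, IsAlgebraic ℚ (g.coeff i))
    (h2 : TwoZeros ⊥ ![f.map (algebraMap ℝ ℂ), g.map (algebraMap ℝ ℂ)]) (D : ℕ) :
    {n : ℤ | 0 < f.eval (n : ℝ) ∧ 0 < g.eval (n : ℝ) ∧ ¬ ∀ x ∈ quots pel D 2,
      Complex.exp (x 0) * ((f.eval (n : ℝ) * pi : ℝ) : ℂ) ^ (x 1) *
        ((g.eval (n : ℝ) * exp 1 : ℝ) : ℂ) ^ (x 2) ∈ Prods →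
      IsAlgebraic ℚ (x 1) ∧ IsAlgebraic ℚ (x 2)}.Finite := by
  have h2' : TwoZeros (IntermediateField.adjoin ℚ (((∅ : Finset ℂ)) : Set ℂ))
      ![f.map (algebraMap ℝ ℂ), g.map (algebraMap ℝ ℂ)] := by
    rw [Finset.coe_empty, IntermediateField.adjoin_empty]
    exact h2
  refine (int_of_ring (general pel D ![((Real.log pi : ℝ) : ℂ), 1] ∅ (by simp)
    ![f.map (algebraMap ℝ ℂ), g.map (algebraMap ℝ ℂ)] (fun j i => by
      fin_cases j
      · exact map_alg hf i
      · exact map_alg hg i) h2')).subset ?_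
  rintro n ⟨hfn, hgn, hno⟩
  intro hall
  refine hno fun x hx hmem => ?_
  have h3 := hall.2 ![((Real.log (f.eval (n : ℝ)) : ℝ) : ℂ),
    ((Real.log (g.eval (n : ℝ)) : ℝ) : ℂ)] (fun j => by
      fin_cases j
      · show Complex.exp ((Real.log (f.eval (n : ℝ)) : ℝ) : ℂ) =
          (f.map (algebraMap ℝ ℂ)).eval (n : ℂ)
        rw [map_eval, ← Complex.ofReal_exp, Real.exp_log hfn]
      · show Complex.exp ((Real.log (g.eval (n : ℝ)) : ℝ) : ℂ) =
          (g.map (algebraMap ℝ ℂ)).eval (n : ℂ)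
        rw [map_eval, ← Complex.ofReal_exp, Real.exp_log hgn]) x hx (by
      rw [Fin.prod_univ_two]
      have hP : 0 < f.eval (n : ℝ) * pi := mul_pos hfn Real.pi_pos
      have hE : 0 < g.eval (n : ℝ) * exp 1 := mul_pos hgn (Real.exp_pos 1)
      have a1 : ((f.eval (n : ℝ) * pi : ℝ) : ℂ) ^ (x 1) = Complex.exp (x (Fin.succ 0) *
          (![((Real.log (f.eval (n : ℝ)) : ℝ) : ℂ), ((Real.log (g.eval (n : ℝ)) : ℝ) : ℂ)] 0 +
            ![((Real.log pi : ℝ) : ℂ), 1] 0)) := by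
        rw [Complex.cpow_def_of_ne_zero (Complex.ofReal_ne_zero.2 hP.ne'), ← Complex.ofReal_log hP.le,
          Real.log_mul hfn.ne' Real.pi_ne_zero]
        congr 1
        push_cast
        show _ * x 1 = x 1 * (_ + _)
        rw [mul_comm]
      have a2 : ((g.eval (n : ℝ) * exp 1 : ℝ) : ℂ) ^ (x 2) = Complex.exp (x (Fin.succ 1) *
          (![((Real.log (f.eval (n : ℝ)) : ℝ) : ℂ), ((Real.log (g.eval (n : ℝ)) : ℝ) : ℂ)] 1 +
            ![((Real.log pi : ℝ) : ℂ), 1] 1)) := by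
        rw [Complex.cpow_def_of_ne_zero (Complex.ofReal_ne_zero.2 hE.ne'), ← Complex.ofReal_log hE.le,
          Real.log_mul hgn.ne' (Real.exp_pos 1).ne', Real.log_exp]
        congr 1
        push_cast
        show _ * x 2 = x 2 * (_ + _)
        rw [mul_comm]
      rw [a1, a2, mul_assoc] at hmem
      exact hmem)
  exact ⟨h3 0, h3 1⟩

/-- the example -/
theorem ex_alg (c : ℝ) (hc : IsAlgebraic ℚ c) (i : ℕ) :
    IsAlgebraic ℚ ((Polynomial.X + Polynomial.C c : Polynomial ℝ).coeff i) := by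
  rw [Polynomial.coeff_add, Polynomial.coeff_X, Polynomial.coeff_C]
  refine IsAlgebraic.add ?_ ?_
  · split_ifs
    · exact isAlgebraic_one
    · exact isAlgebraic_zero
  · split_ifs
    · exact hc
    · exact isAlgebraic_zero

theorem ex_zeros (c : ℝ) (hc : Irrational c) : HasZeros (Polynomial.X + Polynomial.C c) := by
  refine ⟨((-c : ℝ) : ℂ), ?_, Or.inl fun q hq => ?_⟩
  · rw [map_add, Polynomial.aeval_X, Polynomial.aeval_C]
    simp
  · apply hc
    have h1 : ((-c : ℝ) : ℂ) = (((q : ℝ)) : ℂ) := by rw [hq]; norm_cast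
    have h2 : -c = (q : ℝ) := Complex.ofReal_injective h1
    refine ⟨-q, ?_⟩
    push_cast
    linarith

theorem sqrt_alg (m : ℕ) : IsAlgebraic ℚ (√(m : ℝ)) := by
  refine IsAlgebraic.of_pow (n := 2) two_pos ?_
  rw [Real.sq_sqrt (Nat.cast_nonneg m)]
  exact isAlgebraic_natCast m

theorem example_eight : ∃ N : ℕ, ∀ n : ℕ, N ≤ n →
    8 ≤ Nat.card {i : Fin 9 // Transcendental ℚ
      (nine (((n : ℝ) + √2) * pi) (((n : ℝ) + √3) * exp 1) i)} := by
  have i2 : Irrational (√2 : ℝ) := irrational_sqrt_two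
  have i3 : Irrational (√3 : ℝ) := by
    have := Nat.Prime.irrational_sqrt (p := 3) (by norm_num)
    exact_mod_cast this
  have a2 : IsAlgebraic ℚ (√2 : ℝ) := by exact_mod_cast sqrt_alg 2
  have a3 : IsAlgebraic ℚ (√3 : ℝ) := by exact_mod_cast sqrt_alg 3
  have hfin := eight (f := Polynomial.X + Polynomial.C √2) (g := Polynomial.X + Polynomial.C √3)
    (Polynomial.X_add_C_ne_zero _) (Polynomial.X_add_C_ne_zero _) (ex_alg _ a2) (ex_alg _ a3)
    (ex_zeros _ i2) (ex_zeros _ i3) (by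
      intro c h
      have h1 := congrArg (fun p : Polynomial ℝ => p.coeff 1) h
      have h0 := congrArg (fun p : Polynomial ℝ => p.coeff 0) h
      simp only [Polynomial.coeff_add, Polynomial.coeff_X, Polynomial.coeff_C,
        Polynomial.coeff_C_mul] at h1 h0
      norm_num at h1 h0
      rw [← h1, one_mul] at h0
      have h2 : (2 : ℝ) = 3 := by
        have e2 := Real.sq_sqrt (show (0 : ℝ) ≤ 2 by norm_num)
        have e3 := Real.sq_sqrt (show (0 : ℝ) ≤ 3 by norm_num)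
        rw [← e2, ← e3, h0]
      norm_num at h2) (by
      intro c p h
      have h2 := congrArg (fun p : Polynomial ℝ => p.coeff 2) h
      have h1 := congrArg (fun p : Polynomial ℝ => p.coeff 1) h
      have e : (Polynomial.X + Polynomial.C √2 : Polynomial ℝ) ^ 2 = Polynomial.X ^ 2 +
          Polynomial.C (2 * √2) * Polynomial.X + Polynomial.C (√2 ^ 2) := by
        rw [Polynomial.C_mul, Polynomial.C_pow]
        have : (Polynomial.C (2 : ℝ)) = 2 := by
          exact map_ofNat Polynomial.C 2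
        rw [this]
        ring
      rw [e] at h1 h2
      simp only [Polynomial.coeff_add, Polynomial.coeff_X_pow, Polynomial.coeff_C_mul,
        Polynomial.coeff_X, Polynomial.coeff_C, Polynomial.coeff_map] at h1 h2
      norm_num at h1 h2
      have hp2 : ((p.coeff 2 : ℚ) : ℝ) ≠ 0 := by
        intro h3
        rw [h3, mul_zero] at h2
        exact one_ne_zero h2
      have hc : c = ((p.coeff 2 : ℚ) : ℝ)⁻¹ := by
        field_simp
        linarith
      apply i2
      refine ⟨p.coeff 1 / p.coeff 2 / 2, ?_⟩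
      rw [hc] at h1
      push_cast
      have h4 : √2 = (((p.coeff 2 : ℚ) : ℝ)⁻¹ * ((p.coeff 1 : ℚ) : ℝ)) / 2 := by linarith
      rw [h4]
      field_simp)
  obtain ⟨N, hN⟩ := hfin.bddAbove
  refine ⟨N.toNat + 1, fun n hn => ?_⟩
  by_contra hcon
  have hs2 : (0 : ℝ) < (n : ℝ) + √2 := by positivity
  have hs3 : (0 : ℝ) < (n : ℝ) + √3 := by positivity
  have ef : (Polynomial.X + Polynomial.C √2 : Polynomial ℝ).eval (((n : ℤ)) : ℝ) = (n : ℝ) + √2 := by
    simp
  have eg : (Polynomial.X + Polynomial.C √3 : Polynomial ℝ).eval (((n : ℤ)) : ℝ) = (n : ℝ) + √3 := by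
    simp
  have h1 := hN (a := (n : ℤ)) ⟨by rw [ef]; exact hs2, by rw [eg]; exact hs3, by
    rw [ef, eg]
    rintro ⟨h3, h4⟩
    exact hcon (card_eight h3 h4)⟩
  omega

/-- **Main result.** -/
theorem result :
    -- (1) eight of the nine numbers
    (∀ f g : Polynomial ℝ, f ≠ 0 → g ≠ 0 → (∀ i, IsAlgebraic ℚ (f.coeff i)) →
      (∀ i, IsAlgebraic ℚ (g.coeff i)) → HasZeros f → HasZeros g →
      (∀ c : ℝ, f ≠ Polynomial.C c * g) →
      (∀ (c : ℝ) (p : Polynomial ℚ), f ^ 2 ≠ Polynomial.C c * p.map (algebraMap ℚ ℝ)) →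
      {n : ℤ | 0 < f.eval (n : ℝ) ∧ 0 < g.eval (n : ℝ) ∧
        ¬ ((∀ i : Fin 9, i ≠ 2 → i ≠ 3 →
            Transcendental ℚ (nine (f.eval (n : ℝ) * pi) (g.eval (n : ℝ) * exp 1) i)) ∧
          (Transcendental ℚ (nine (f.eval (n : ℝ) * pi) (g.eval (n : ℝ) * exp 1) 2) ∨
            Transcendental ℚ
              (nine (f.eval (n : ℝ) * pi) (g.eval (n : ℝ) * exp 1) 3)))}.Finite) ∧
    -- (2) an example
    (∃ N : ℕ, ∀ n : ℕ, N ≤ n → 8 ≤ Nat.card {i : Fin 9 // Transcendental ℚ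
      (nine (((n : ℝ) + √2) * pi) (((n : ℝ) + √3) * exp 1) i)}) ∧
    -- (3) products of powers
    (∀ f g : Polynomial ℝ, (∀ i, IsAlgebraic ℚ (f.coeff i)) →
      (∀ i, IsAlgebraic ℚ (g.coeff i)) →
      TwoZeros ⊥ ![f.map (algebraMap ℝ ℂ), g.map (algebraMap ℝ ℂ)] → ∀ D : ℕ,
      {n : ℤ | 0 < f.eval (n : ℝ) ∧ 0 < g.eval (n : ℝ) ∧ ¬ ∀ x ∈ quots pel D 2,
        Complex.exp (x 0) * ((f.eval (n : ℝ) * pi : ℝ) : ℂ) ^ (x 1) *
          ((g.eval (n : ℝ) * exp 1 : ℝ) : ℂ) ^ (x 2) ∈ Prods →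
        IsAlgebraic ℚ (x 1) ∧ IsAlgebraic ℚ (x 2)}.Finite) ∧
    -- (4) the general case
    (∀ (r k : ℕ) (t : Fin r → ℂ) (D : ℕ) (w : Fin k → ℂ) (T : Finset ℂ),
      (∀ x ∈ T, IsAlgebraic ℚ x) → ∀ f : Fin k → Polynomial ℂ,
      (∀ j i, IsAlgebraic ℚ ((f j).coeff i)) →
      TwoZeros (IntermediateField.adjoin ℚ (T : Set ℂ)) f →
      {z : ℂ | z ∈ Subring.closure (T : Set ℂ) ∧ ¬ ((∀ j, (f j).eval z ≠ 0) ∧
        ∀ l : Fin k → ℂ, (∀ j, Complex.exp (l j) = (f j).eval z) → ∀ x ∈ quots t D k,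
        Complex.exp (x 0) * ∏ j : Fin k, Complex.exp (x j.succ * (l j + w j)) ∈ Prods →
        ∀ j : Fin k, IsAlgebraic ℚ (x j.succ))}.Finite) ∧
    -- (5) algebraic numbers
    (∀ x : ℂ, x ≠ 0 → IsAlgebraic ℚ x → x ∈ Prods) :=
  ⟨fun _ _ hf0 hg0 hf hg hfz hgz hfg hsq => eight hf0 hg0 hf hg hfz hgz hfg hsq, example_eight,
    fun _ _ hf hg h2 D => pair hf hg h2 D,
    fun _ _ t D w T hT f hf h2 => general t D w T hT f hf h2,
    fun _ hx0 hx => alg_prods hx hx0⟩

end Pool.Agent.Results.MP_a2f59b_nt.EightOfNine
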