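import Mathlib
import Pool.Graph.R_seed8.H335R2.MThm
import Pool.Graph.R_seed8.W254.HP.Rel
import Pool.Agent.H596.Quad

/-!
# The numbers `e ^ q` for quadratic forms `q` in `π` and logarithms

The number `e ^ (π ^ 2)` of the problem is the exponential of a quadratic form in `π` (or in `λ_1 = π i`); so are
`2 ^ π = e ^ (π log 2)`, `2 ^ (log 2)`, `2 ^ (log 3)`, …. Let `λ_1, …, λ_m` be logarithms of algebraic numbers which are
linearly independent over `ℚ`. The quadratic forms in `m` variables with algebraic coefficients form a space of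
dimension `m (m + 1) / 2` over the algebraic numbers. Call such a form `q` exceptional if
`exp (γ + c_1 μ_1 + ⋯ + c_k μ_k + q(λ_1, …, λ_m))` is algebraic for some algebraic numbers `γ, c_j` and some logarithms
`μ_j` of algebraic numbers. (The expectation is that only `q = 0` is exceptional.)

**Theorem.** The exceptional quadratic forms form a space of dimension at most `⌊(m + 1) ^ 2 / 4⌋`. In other words, of
any linearly independent quadratic forms at most `⌊(m + 1) ^ 2 / 4⌋` are exceptional. In particular of any basis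
`q_1, q_2, …` of the space of all quadratic forms in `m` variables at least
`⌊m ^ 2 / 4⌋ = m (m + 1) / 2 - ⌊(m + 1) ^ 2 / 4⌋`
members have a transcendental `e ^ (q_i(λ))`, and the products `λ_i λ_j` span a space of dimension at least
`⌊m ^ 2 / 4⌋` modulo the space `𝓛` of all linear combinations of `1` and of logarithms of algebraic numbers.

The proof. A form is exceptional if and only if `q(λ) ∈ 𝓛`. Let `m = e + f`. The exceptional forms which belong to the
ideal of the first `e` variables give relations `w_0 + λ_1 w_1 + ⋯ + λ_e w_e = 0` with `w_i ∈ 𝓛`. So do the trivial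
relations `λ_i λ_j - λ_j λ_i = 0` and `(-λ_i) + λ_i = 0`. By the hyperplane case of the linear subgroup theorem
(Waldschmidt, Roy; `Pool.Agent.W254.HP.hyperplane` of the library) the space of all these relations has dimension at
most `(e + 1) e`. This leaves at most `e (e + 1) / 2` forms; the other forms are distinguished by their restrictions
to the last `f` variables, and we take `e = ⌊m / 2⌋`.
-/

set_option autoImplicit false

open Complex Pool.Agent.H335R2 Pool.Agent.H301R2.SSE Pool.Agent.H596

namespace Pool.Agent.Results.MP_a2f59b_nt.QuadraticFormsInLogarithms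

/-- `S` is the matrix of an exceptional quadratic form: it is symmetric, has algebraic entries, and for some algebraic
numbers `γ, c_j` and some logarithms `μ_j` of algebraic numbers the number
`exp (γ + ∑ c_j μ_j + ∑ S_ij l_i l_j)` is algebraic. -/
def Exceptional {m : ℕ} (l : Fin m → ℂ) (S : Matrix (Fin m) (Fin m) ℂ) : Prop :=
  (∀ i j, IsAlgebraic ℚ (S i j)) ∧ S.IsSymm ∧
    ∃ (γ : ℂ) (k : ℕ) (c μ : Fin k → ℂ), IsAlgebraic ℚ γ ∧ (∀ j, IsAlgebraic ℚ (c j)) ∧
      (∀ j, IsAlgebraic ℚ (exp (μ j))) ∧
      IsAlgebraic ℚ (exp (γ + ∑ j, c j * μ j + ∑ i, ∑ j, S i j * (l i * l j)))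

theorem hp : Quad.HP (K := QB) Lt := by
  intro κ _ d x a hx ha hxa hcol
  exact Pool.Agent.W254.HP.hyperplane' d x a hx ha hxa hcol

/-- **Theorem.** Of any quadratic forms `S_1, …, S_k` which are linearly independent over the algebraic numbers at most
`⌊(m + 1) ^ 2 / 4⌋` are exceptional. -/
theorem result (m : ℕ) (l : Fin m → ℂ) (hl : ∀ i, IsAlgebraic ℚ (exp (l i))) (hli : LinearIndependent ℚ l)
    (k : ℕ) (S : Fin k → Matrix (Fin m) (Fin m) ℂ)
    (hS : ∀ c : Fin k → ℂ, (∀ a, IsAlgebraic ℚ (c a)) → ∑ a, c a • S a = 0 → c = 0) :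
    {a : Fin k | Exceptional l (S a)}.ncard ≤ (m + 1) ^ 2 / 4 := by
  classical
  have hi : Quad.Ind' QB l := by
    intro a b h
    obtain ⟨h1, h2⟩ := baker_inhom l hl hli (a : ℂ) (mem_QB.1 a.2) (fun i => (b i : ℂ))
      (fun i => mem_QB.1 (b i).2) (by
        rw [← h, Algebra.smul_def, mul_one]
        congr 1)
    exact ⟨Subtype.ext h1, fun i => Subtype.ext (h2 i)⟩
  have key := Quad.finrank_N (K := QB) (by norm_num) hp Lt_one (t := l) (fun i => Lt_log (hl i)) hi
  refine le_trans ?_ key
  have hmem : ∀ a : {a : Fin k | Exceptional l (S a)}, ∃ T : Quad.N (K := QB) Lt l,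
      ∀ i j, ((T.1 i j : QB) : ℂ) = S a i j := by
    rintro ⟨a, halg, hsymm, γ, n, c, μ, hγ, hc, hμ, hexp⟩
    refine ⟨⟨fun i j => ⟨S a i j, mem_QB.2 (halg i j)⟩, fun i j => Subtype.ext ?_, ?_⟩, fun i j => rfl⟩
    · exact (hsymm.apply i j).symm
    · have e : Quad.qv (K := QB) l (fun i j => ⟨S a i j, mem_QB.2 (halg i j)⟩) =
          (γ + ∑ j, c j * μ j + ∑ i, ∑ j, S a i j * (l i * l j)) - (γ + ∑ j, c j * μ j) := by
        rw [add_sub_cancel_left]
        rfl
      rw [e]
      exact Lt.sub_mem (Lt_log hexp) (Lt.add_mem (Lt_alg hγ) (Lt.sum_mem fun j _ =>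
        Lt_mul (hc j) (Lt_log (hμ j))))
  choose T hT using hmem
  have hSQ : LinearIndependent QB S := by
    rw [Fintype.linearIndependent_iff]
    intro g hg a
    have h1 := hS (fun b => (g b : ℂ)) (fun b => mem_QB.1 (g b).2) hg
    exact Subtype.ext (congrFun h1 a)
  let F : Quad.N (K := QB) Lt l →ₗ[QB] Matrix (Fin m) (Fin m) ℂ :=
    { toFun := fun X i j => ((X.1 i j : QB) : ℂ)
      map_add' := by intro X Y; rfl
      map_smul' := by intro c X; rfl }
  have hlin : LinearIndependent QB T := by
    refine LinearIndependent.of_comp F ?_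
    have h1 : F ∘ T = S ∘ (Subtype.val : {a : Fin k | Exceptional l (S a)} → Fin k) := by
      funext a
      funext i j
      exact hT a i j
    rw [h1]
    exact hSQ.comp _ Subtype.val_injective
  have h2 := hlin.fintype_card_le_finrank
  rw [← Nat.card_coe_set_eq, Nat.card_eq_fintype_card]
  exact h2

end Pool.Agent.Results.MP_a2f59b_nt.QuadraticFormsInLogarithms
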