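import Mathlib
import Pool.Graph.R_seed8.H335R2.MThm
import Pool.Agent.H596.Sq

/-!
# The numbers `e ^ (t ^ 2)` for linear forms `t` in `π` and logarithms

The number `e ^ (π ^ 2)` is the member `t = π` of the family `e ^ (t ^ 2)`, `t = b_0 λ_0 + ⋯ + b_n λ_n`, where
`λ_0 = π i, λ_1, …, λ_n` are logarithms of algebraic numbers and the `b_i` are algebraic numbers.

**Theorem.** Let `λ_0, …, λ_n` be logarithms of algebraic numbers which are linearly independent over `ℚ`. A vector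
`b ≠ 0` of algebraic numbers is called exceptional if there are algebraic numbers `β, γ, c_j` and logarithms `μ_j` of
algebraic numbers for which `exp (γ + c_1 μ_1 + ⋯ + c_m μ_m + (β + b_0 λ_0 + ⋯ + b_n λ_n) ^ 2)` is algebraic. All
exceptional vectors lie on at most `2 ^ n` lines through the origin, on at most three lines if `n = 2`, and any four of
these lines are linearly independent.

(The conjectures of Schanuel and of Gelfond on algebraic independence say that there is no exceptional vector.)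
For `n = 1`, at least one of the numbers `e ^ (π ^ 2)`, `e ^ ((π + log 2) ^ 2)`, `e ^ ((π - log 2) ^ 2)` is
transcendental; for `n = 2` at least one of any four numbers `e ^ ((a π + b log 2 + c log 3) ^ 2)` with algebraic
pairwise non-proportional `(a, b, c)` is transcendental.

The proof. Let `𝓛` be the space of all linear combinations, with algebraic coefficients, of `1` and of logarithms of
algebraic numbers. The vector `b` is exceptional if and only if `t ^ 2 ∈ 𝓛` for `t = ∑ b_i λ_i`. By the strong six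
exponentials theorem of D. Roy, for a transcendental `t ∈ 𝓛` the space of the `s ∈ 𝓛` with `t s ∈ 𝓛` has dimension
at most two; if `t ^ 2 ∈ 𝓛` it is spanned by `1` and `t`. So `b ↦ t ^ 2` modulo `𝓛` is a family of quadratic forms
in `n + 1` variables whose common zeros are nondegenerate, and a form of the theorem of Bezout
(`Pool.Agent.H596.Bez.bezout`) bounds the number of the nondegenerate zeros. The independence of four lines: if
`u, v, w` and `u + v + w` have their squares in `𝓛`, then `(u + v) (u + w)` and `(u + v) (v + w)` are in `𝓛`.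
-/

set_option autoImplicit false

open Complex Pool.Agent.H335R2 Pool.Agent.H301R2.SSE Pool.Agent.H596.Sq

namespace Pool.Agent.Results.MP_a2f59b_nt.SquaresOfLinearForms

/-- the space of all linear combinations of `1` and of logarithms of algebraic numbers, with algebraic
coefficients -/
noncomputable def 𝓛 : Submodule (algebraicClosure ℚ ℂ) ℂ :=
  Submodule.span (algebraicClosure ℚ ℂ) ({1} ∪ {z : ℂ | IsAlgebraic ℚ (exp z)})

theorem L_eq : 𝓛 = Lt := rfl

/-- `1, t_1, …, t_m` are linearly independent over the algebraic numbers -/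
def IndependentWithOne {m : ℕ} (t : Fin m → ℂ) : Prop :=
  ∀ (a : ℂ) (b : Fin m → ℂ), IsAlgebraic ℚ a → (∀ i, IsAlgebraic ℚ (b i)) → a + ∑ i, b i * t i = 0 →
    a = 0 ∧ ∀ i, b i = 0

theorem ind_logs {n : ℕ} (l : Fin n → ℂ) (hl : ∀ i, IsAlgebraic ℚ (exp (l i)))
    (hli : LinearIndependent ℚ l) : Ind l := fun a b ha hb h => baker_inhom l hl hli a ha b hb h

/-- the bound for the number of lines -/
def bound (n : ℕ) : ℕ := if n = 2 then 3 else 2 ^ n

/-- `b ≠ 0` is a vector of algebraic numbers for which the square of `β + b_1 t_1 + ⋯ + b_m t_m` is in `𝓛`, for some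
algebraic `β` -/
def SquareInL {m : ℕ} (t b : Fin m → ℂ) : Prop :=
  b ≠ 0 ∧ (∀ i, IsAlgebraic ℚ (b i)) ∧ ∃ β : ℂ, IsAlgebraic ℚ β ∧ (β + ∑ i, b i * t i) ^ 2 ∈ 𝓛

theorem part1 {n : ℕ} {t : Fin (n + 1) → ℂ} (ht : ∀ i, t i ∈ 𝓛) (hi : IndependentWithOne t) :
    ∃ S : Finset (Fin (n + 1) → ℂ), S.card ≤ bound n ∧ (∀ s ∈ S, s ≠ 0 ∧ ∀ i, IsAlgebraic ℚ (s i)) ∧
      ∀ b : Fin (n + 1) → ℂ, SquareInL t b → ∃ s ∈ S, ∃ r : ℂ, b = r • s := by
  obtain ⟨S, h1, h2, h3⟩ := squares ht hi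
  refine ⟨S, h1, h2, fun b hb => ?_⟩
  by_contra hcon
  push Not at hcon
  obtain ⟨hb0, hba, β, hβ, hmem⟩ := hb
  exact h3 b hba hb0 hcon β hβ hmem

theorem part1' {n : ℕ} {t : Fin (n + 1) → ℂ} (ht : ∀ i, t i ∈ 𝓛) (hi : IndependentWithOne t)
    (b : Fin 4 → Fin (n + 1) → ℂ) (hb : ∀ k, SquareInL t (b k)) (hne : ∀ k j, k ≠ j → ∀ r : ℂ, b j ≠ r • b k)
    (c : Fin 4 → ℂ) (hc : ∀ k, IsAlgebraic ℚ (c k)) (h : ∑ k, c k • b k = 0) : c = 0 := by
  let z : Fin 4 → Fin (n + 1) → QB := fun k i => ⟨b k i, mem_QB.2 ((hb k).2.1 i)⟩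
  let d : Fin 4 → QB := fun k => ⟨c k, mem_QB.2 (hc k)⟩
  have hT : ∀ k, T t (z k) = ∑ i, b k i * t i := fun k => rfl
  have key := four ht hi z ?_ ?_ ?_ d ?_
  · funext k
    exact congrArg Subtype.val (congrFun key k)
  · intro k h0
    apply (hb k).1
    funext i
    exact congrArg Subtype.val (congrFun h0 i)
  · intro k j hkj r hr
    apply hne k j hkj (r : ℂ)
    funext i
    exact congrArg Subtype.val (congrFun hr i)
  · intro k
    obtain ⟨hb0, hba, β, hβ, hmem⟩ := hb k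
    have e : T t (z k) * T t (z k) = (β + ∑ i, b k i * t i) ^ 2 - β * β - 2 * β * T t (z k) := by
      rw [hT]; ring
    rw [e]
    exact Lt.sub_mem (Lt.sub_mem hmem (Lt_alg (hβ.mul hβ)))
      (Lt_mul (IsAlgebraic.mul (by simpa using algQ 2) hβ) (T_mem ht (z k)))
  · funext i
    apply Subtype.ext
    have h1 := congrFun h i
    rw [Finset.sum_apply] at h1 ⊢
    rw [Pi.zero_apply] at h1 ⊢
    rw [show ((0 : QB) : ℂ) = 0 from rfl, ← h1, AddSubmonoidClass.coe_finsetSum]
    rfl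

/-- `b` is exceptional: for some algebraic numbers `β, γ, c_j` and some logarithms `μ_j` of algebraic numbers the number
`exp (γ + ∑ c_j μ_j + (β + ∑ b_i l_i) ^ 2)` is algebraic -/
def Exceptional {m : ℕ} (l b : Fin m → ℂ) : Prop :=
  b ≠ 0 ∧ (∀ i, IsAlgebraic ℚ (b i)) ∧
    ∃ (β γ : ℂ) (k : ℕ) (c μ : Fin k → ℂ), IsAlgebraic ℚ β ∧ IsAlgebraic ℚ γ ∧
      (∀ j, IsAlgebraic ℚ (c j)) ∧ (∀ j, IsAlgebraic ℚ (exp (μ j))) ∧
      IsAlgebraic ℚ (exp (γ + ∑ j, c j * μ j + (β + ∑ i, b i * l i) ^ 2))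

theorem square_of_exceptional {m : ℕ} {l b : Fin m → ℂ} (h : Exceptional l b) : SquareInL l b := by
  obtain ⟨hb0, hb, β, γ, k, c, μ, hβ, hγ, hc, hμ, halg⟩ := h
  refine ⟨hb0, hb, β, hβ, ?_⟩
  have e : (β + ∑ i, b i * l i) ^ 2 =
      (γ + ∑ j, c j * μ j + (β + ∑ i, b i * l i) ^ 2) - (γ + ∑ j, c j * μ j) := by ring
  rw [e]
  exact Lt.sub_mem (Lt_log halg) (Lt.add_mem (Lt_alg hγ) (Lt.sum_mem fun j _ =>
    Lt_mul (hc j) (Lt_log (hμ j))))

/-- The exceptional vectors lie on at most `bound n` lines, and any four of these lines are linearly independent. -/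
theorem result (n : ℕ) (l : Fin (n + 1) → ℂ) (hl : ∀ i, IsAlgebraic ℚ (exp (l i)))
    (hli : LinearIndependent ℚ l) :
    (∃ S : Finset (Fin (n + 1) → ℂ), S.card ≤ bound n ∧ (∀ s ∈ S, s ≠ 0 ∧ ∀ i, IsAlgebraic ℚ (s i)) ∧
      ∀ b : Fin (n + 1) → ℂ, Exceptional l b → ∃ s ∈ S, ∃ r : ℂ, b = r • s) ∧
    ∀ b : Fin 4 → Fin (n + 1) → ℂ, (∀ k, Exceptional l (b k)) → (∀ k j, k ≠ j → ∀ r : ℂ, b j ≠ r • b k) →
      ∀ c : Fin 4 → ℂ, (∀ k, IsAlgebraic ℚ (c k)) → ∑ k, c k • b k = 0 → c = 0 := by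
  have ht : ∀ i, l i ∈ 𝓛 := fun i => Lt_log (hl i)
  have hi : IndependentWithOne l := ind_logs l hl hli
  refine ⟨?_, fun b hb => part1' ht hi b (fun k => square_of_exceptional (hb k))⟩
  obtain ⟨S, h1, h2, h3⟩ := part1 ht hi
  exact ⟨S, h1, h2, fun b hb => h3 b (square_of_exceptional hb)⟩

end Pool.Agent.Results.MP_a2f59b_nt.SquaresOfLinearForms
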